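import Pool.Agent.R341.Uni17

/-!
# Level sets of the smallest univoque base function: sequences with tail `(01)^∞`
-/

set_option autoImplicit false

namespace Pool.Agent.W2helper84.QS

open Pool.Agent.R341.Uni

/-- the sequence `(01)^∞` -/
def zz : ℕ → Bool := fun n => decide (n % 2 = 1)

/-- the sequence `(10)^∞` -/
def zo : ℕ → Bool := cons true zz

lemma zz_eq : cons false (cons true zz) = zz := by
  funext n
  rcases n with _ | _ | n
  · rfl
  · rfl
  · simp only [cons, zz]
    simp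
    omega

lemma sh1_zz : sh 1 zz = zo := by
  have h : sh 1 (cons false (cons true zz)) = cons true zz := sh_cons _ _
  rw [zz_eq] at h
  exact h

lemma sh1_zo : sh 1 zo = zz := sh_cons _ _

lemma P_zz {q : ℝ} (hq : 1 < q) : P q zz = 1 / (q ^ 2 - 1) := by
  have h := congrArg (P q) zz_eq
  rw [P_cons hq, P_cons hq, dg_false, dg_true, zero_add] at h
  have h2 : 0 < q ^ 2 - 1 := by nlinarith
  have hq0 : q ≠ 0 := by linarith
  rw [eq_div_iff h2.ne']
  field_simp at h
  linarith

lemma P_zo {q : ℝ} (hq : 1 < q) : P q zo = q / (q ^ 2 - 1) := by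
  have h2 : 0 < q ^ 2 - 1 := by nlinarith
  have hq0 : q ≠ 0 := by linarith
  unfold zo
  rw [P_cons hq, P_zz hq, dg_true]
  field_simp
  ring

/-- adding one digit -/
lemma un_cons {q : ℝ} {e : ℕ → Bool} (b : Bool) (he : Un q e) (h0 : b = false → P q e < 1)
    (h1 : b = true → 1 / (q - 1) - 1 < P q e) : Un q (cons b e) := by
  intro n
  rcases n with _ | n
  · rw [zero_add, sh_cons, cons_zero]
    exact ⟨h0, h1⟩
  · have e1 : cons b e (n + 1) = e n := by simp [cons]
    have e2 : sh (n + 1 + 1) (cons b e) = sh (n + 1) e := by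
      rw [show n + 1 + 1 = 1 + (n + 1) by ring, ← sh_sh, sh_cons]
    rw [e1, e2]
    exact he n

/-- the lower bound for the tails after the digit one -/
lemma low_zz {q : ℝ} (hq : 1 < q) (hG : 1 < q ^ 2 - q) : 1 / (q - 1) - 1 < 1 / (q ^ 2 - 1) := by
  have h1 : 0 < q - 1 := by linarith
  have h2 : 0 < q + 1 := by linarith
  have e : 1 / (q ^ 2 - 1) - (1 / (q - 1) - 1) = (q ^ 2 - q - 1) / ((q - 1) * (q + 1)) := by
    have h3 : q ^ 2 - 1 = (q - 1) * (q + 1) := by ring
    rw [h3]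
    field_simp
    ring
  have h4 : 0 < (q ^ 2 - q - 1) / ((q - 1) * (q + 1)) :=
    div_pos (by linarith) (mul_pos h1 h2)
  linarith

lemma un_zz {q : ℝ} (hq : 1 < q) (hG : 1 < q ^ 2 - q) : Un q zz := by
  have h2 : 0 < q ^ 2 - 1 := by nlinarith
  have key : ∀ n, (zz n = false ∧ sh (n + 1) zz = zo) ∨ (zz n = true ∧ sh (n + 1) zz = zz) := by
    intro n
    induction n with
    | zero => exact Or.inl ⟨rfl, sh1_zz⟩
    | succ n ih =>
      have e : sh (n + 1 + 1) zz = sh 1 (sh (n + 1) zz) := by rw [sh_sh]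
      have e2 : zz (n + 1) = sh (n + 1) zz 0 := rfl
      rcases ih with ⟨_, h⟩ | ⟨_, h⟩
      · right
        rw [e, e2, h, sh1_zo]
        exact ⟨rfl, rfl⟩
      · left
        rw [e, e2, h, sh1_zz]
        exact ⟨rfl, rfl⟩
  intro n
  rcases key n with ⟨h, h'⟩ | ⟨h, h'⟩
  · rw [h, h']
    refine ⟨fun _ => ?_, fun h => by simp at h⟩
    rw [P_zo hq, div_lt_one h2]
    linarith
  · rw [h, h']
    refine ⟨fun h => by simp at h, fun _ => ?_⟩
    rw [P_zz hq]
    exact low_zz hq hG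

/-! ### the sequences `(10)^(k+1) 11 (01)^∞` -/

/-- the sequence `(10)^(k+1) 11 (01)^∞` -/
def S : ℕ → (ℕ → Bool)
  | 0 => cons true (cons false (cons true (cons true zz)))
  | k + 1 => cons true (cons false (S k))

lemma P_S {q : ℝ} (hq : 1 < q) (k : ℕ) :
    P q (S k) = q / (q ^ 2 - 1) + 1 / (q ^ (2 * k + 3) * (q + 1)) := by
  have h2 : 0 < q ^ 2 - 1 := by nlinarith
  have hq0 : q ≠ 0 := by linarith
  have hq1 : q + 1 ≠ 0 := by linarith
  have hq3 : q - 1 ≠ 0 := by linarith
  have e3 : q ^ 2 - 1 = (q - 1) * (q + 1) := by ring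
  induction k with
  | zero =>
    rw [S, P_cons hq, P_cons hq, P_cons hq, P_cons hq, P_zz hq, dg_false, dg_true, e3]
    field_simp
    ring
  | succ k ih =>
    rw [S, P_cons hq, P_cons hq, ih, dg_false, dg_true, e3]
    have e : q ^ (2 * (k + 1) + 3) = q ^ (2 * k + 3) * q ^ 2 := by ring
    rw [e]
    have h5 : q ^ (2 * k + 3) ≠ 0 := pow_ne_zero _ hq0
    field_simp
    ring

lemma S_bounds {q : ℝ} (hq : 1.86 ≤ q) (k : ℕ) :
    1 / (q ^ 2 - 1) < P q (S k) / q ∧ 1 + P q (S k) < q ∧ P q (S k) < 1 := by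
  have hq1 : 1 < q := by linarith
  have h2 : 0 < q ^ 2 - 1 := by nlinarith
  have h0 : 0 < 1 / (q ^ (2 * k + 3) * (q + 1)) := by positivity
  rw [P_S hq1]
  have h3 : 1 / (q ^ (2 * k + 3) * (q + 1)) ≤ 1 / (1.86 ^ 3 * 2.86) := by
    apply one_div_le_one_div_of_le (by norm_num)
    have h4 : (1.86 : ℝ) ^ 3 ≤ q ^ (2 * k + 3) := by
      calc (1.86 : ℝ) ^ 3 ≤ q ^ 3 := pow_le_pow_left₀ (by norm_num) hq 3
        _ ≤ q ^ (2 * k + 3) := pow_le_pow_right₀ hq1.le (by omega)
    exact mul_le_mul h4 (by linarith) (by norm_num) (by positivity)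
  have h5 : (1 : ℝ) / (1.86 ^ 3 * 2.86) ≤ 0.0544 := by norm_num
  have h6 : q / (q ^ 2 - 1) ≤ 0.7563 := by
    rw [div_le_iff₀ h2]
    nlinarith
  refine ⟨?_, by linarith, by linarith⟩
  have e : q / (q ^ 2 - 1) = q * (1 / (q ^ 2 - 1)) := by ring
  rw [lt_div_iff₀ (by linarith), e]
  linarith

lemma un_S {q : ℝ} (hq : 1.86 ≤ q) (k : ℕ) : Un q (S k) := by
  have hq1 : 1 < q := by linarith
  have hG : 1 < q ^ 2 - q := by nlinarith
  have hl := low_zz hq1 hG
  have h2 : 0 < q ^ 2 - 1 := by nlinarith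
  induction k with
  | zero =>
    have u1 : Un q (cons true zz) :=
      un_cons true (un_zz hq1 hG) (fun h => by simp at h) (fun _ => by rw [P_zz hq1]; exact hl)
    have v1 : P q (cons true zz) = q / (q ^ 2 - 1) := P_zo hq1
    have w1 : 1 / (q ^ 2 - 1) < q / (q ^ 2 - 1) := by
      apply div_lt_div_of_pos_right hq1 h2
    have u2 : Un q (cons true (cons true zz)) :=
      un_cons true u1 (fun h => by simp at h) (fun _ => by rw [v1]; linarith)
    have v2 : P q (cons true (cons true zz)) = (1 + q / (q ^ 2 - 1)) / q := by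
      rw [P_cons hq1, v1, dg_true]
    have h6 : q / (q ^ 2 - 1) ≤ 0.7563 := by
      rw [div_le_iff₀ h2]
      nlinarith
    have v2' : P q (cons true (cons true zz)) < 1 := by
      rw [v2, div_lt_one (by linarith)]
      linarith
    have u3 : Un q (cons false (cons true (cons true zz))) :=
      un_cons false u2 (fun _ => v2') (fun h => by simp at h)
    rw [S]
    refine un_cons true u3 (fun h => by simp at h) (fun _ => ?_)
    rw [P_cons hq1, v2, dg_false, zero_add]
    have e : 1 / (q ^ 2 - 1) < (1 + q / (q ^ 2 - 1)) / q / q := by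
      rw [lt_div_iff₀ (by linarith), lt_div_iff₀ (by linarith)]
      have e3 : 1 / (q ^ 2 - 1) * q * q = 1 + 1 / (q ^ 2 - 1) := by
        field_simp
        ring
      rw [e3]
      linarith
    linarith
  | succ k ih =>
    obtain ⟨b1, b2, b3⟩ := S_bounds hq k
    have u1 : Un q (cons false (S k)) := un_cons false ih (fun _ => b3) (fun h => by simp at h)
    rw [S]
    refine un_cons true u1 (fun h => by simp at h) (fun _ => ?_)
    rw [P_cons hq1, dg_false, zero_add]
    linarith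

/-! ### the sequences `1001 0001 (10)^(k+1) 11 (01)^∞` -/

/-- the tail `0001 (10)^(k+1) 11 (01)^∞` -/
def T (k : ℕ) : ℕ → Bool := cons false (cons false (cons false (cons true (S k))))

/-- the sequence `1001 0001 (10)^(k+1) 11 (01)^∞` -/
def V (k : ℕ) : ℕ → Bool := cons true (cons false (cons false (cons true (T k))))

lemma P_T {q : ℝ} (hq : 1 < q) (k : ℕ) : P q (T k) = (1 + P q (S k)) / q ^ 4 := by
  unfold T
  rw [P_cons hq, P_cons hq, P_cons hq, P_cons hq, dg_false, dg_true]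
  have hq0 : q ≠ 0 := by linarith
  field_simp
  ring

lemma P_V {q : ℝ} (hq : 1 < q) (k : ℕ) : P q (V k) = 1 / q + (1 + P q (T k)) / q ^ 4 := by
  unfold V
  rw [P_cons hq, P_cons hq, P_cons hq, P_cons hq, dg_false, dg_true]
  have hq0 : q ≠ 0 := by linarith
  field_simp
  ring

lemma un_V {q : ℝ} (hq : 1.86 ≤ q) (hq2 : q ≤ 2) (k : ℕ) (hT : 1 / (q - 1) - 1 < P q (T k)) :
    Un q (V k) := by
  have hq1 : 1 < q := by linarith
  have hq0 : 0 < q := by linarith
  have hG : 1 < q ^ 2 - q := by nlinarith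
  have hl := low_zz hq1 hG
  have h2 : 0 < q ^ 2 - 1 := by nlinarith
  obtain ⟨b1, b2, b3⟩ := S_bounds hq k
  have hS := P_nonneg hq1 (S k)
  have hb : 1 / (q ^ 2 - 1) < P q (S k) := by
    refine lt_of_lt_of_le b1 ?_
    exact div_le_self hS hq1.le
  have u1 : Un q (cons true (S k)) :=
    un_cons true (un_S hq k) (fun h => by simp at h) (fun _ => by linarith)
  have v1 : P q (cons true (S k)) = (1 + P q (S k)) / q := by rw [P_cons hq1, dg_true]
  have w1 : P q (cons true (S k)) < 1 := by rw [v1, div_lt_one hq0]; exact b2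
  have u2 : Un q (cons false (cons true (S k))) :=
    un_cons false u1 (fun _ => w1) (fun h => by simp at h)
  have low : ∀ {e : ℕ → Bool}, P q e < 1 → P q (cons false e) < 1 := by
    intro e he
    rw [P_cons hq1, dg_false, zero_add, div_lt_one hq0]
    linarith
  have w2 := low w1
  have u3 := un_cons false u2 (fun _ => w2) (fun h => by simp at h)
  have w3 := low w2
  have u4 : Un q (T k) := un_cons false u3 (fun _ => w3) (fun h => by simp at h)
  have w4 : P q (T k) < 1 := low w3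
  have u5 : Un q (cons true (T k)) := un_cons true u4 (fun h => by simp at h) (fun _ => hT)
  have hT0 := P_nonneg hq1 (T k)
  have hT2 : P q (T k) < 0.2 := by
    rw [P_T hq1, div_lt_iff₀ (by positivity)]
    have : (1.86 : ℝ) ^ 4 ≤ q ^ 4 := pow_le_pow_left₀ (by norm_num) hq 4
    norm_num at this
    linarith
  have v5 : P q (cons true (T k)) = (1 + P q (T k)) / q := by rw [P_cons hq1, dg_true]
  have w5 : P q (cons true (T k)) < 1 := by
    rw [v5, div_lt_one hq0]
    linarith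
  have u6 := un_cons false u5 (fun _ => w5) (fun h => by simp at h)
  have w6 := low w5
  have u7 := un_cons false u6 (fun _ => w6) (fun h => by simp at h)
  unfold V
  refine un_cons true u7 (fun h => by simp at h) (fun _ => ?_)
  rw [P_cons hq1, P_cons hq1, v5, dg_false, zero_add, zero_add]
  have h1 : 0 < q - 1 := by linarith
  have h7 : (2 - q) * q ^ 3 < 1 := by
    obtain ⟨h, hh⟩ : ∃ h, q = 1.86 + h := ⟨q - 1.86, by ring⟩
    have hh0 : 0 ≤ h := by linarith
    rw [hh]
    have e : (2 - (1.86 + h)) * (1.86 + h) ^ 3 = 0.14 * 1.86 ^ 3 -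
        (h * (1.86 ^ 3 - 0.14 * 3 * 1.86 ^ 2) + h ^ 2 * (3 * 1.86 ^ 2 - 0.14 * 3 * 1.86) +
          h ^ 3 * (3 * 1.86 - 0.14) + h ^ 4) := by ring
    rw [e]
    have : 0 ≤ h * (1.86 ^ 3 - 0.14 * 3 * 1.86 ^ 2) + h ^ 2 * (3 * 1.86 ^ 2 - 0.14 * 3 * 1.86) +
          h ^ 3 * (3 * 1.86 - 0.14) + h ^ 4 := by
      have a1 : (0 : ℝ) ≤ 1.86 ^ 3 - 0.14 * 3 * 1.86 ^ 2 := by norm_num
      have a2 : (0 : ℝ) ≤ 3 * 1.86 ^ 2 - 0.14 * 3 * 1.86 := by norm_num
      have a3 : (0 : ℝ) ≤ 3 * 1.86 - 0.14 := by norm_num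
      positivity
    norm_num at this ⊢
    linarith
  have h8 : 1 / (q - 1) - 1 < 1 / (q - 1) / q / q / q := by
    have e : 1 / (q - 1) / q / q / q - (1 / (q - 1) - 1) =
        (1 - (2 - q) * q ^ 3) / ((q - 1) * q ^ 3) := by
      field_simp
      ring
    have : 0 < (1 - (2 - q) * q ^ 3) / ((q - 1) * q ^ 3) :=
      div_pos (by linarith) (by positivity)
    linarith
  refine lt_of_lt_of_le h8 ?_
  have h9 : 1 / (q - 1) ≤ 1 + P q (T k) := by linarith
  gcongr

end Pool.Agent.W2helper84.QS
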