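import Pool.Agent.W2helper84.QS.Near

/-!
# Level sets of the smallest univoque base function: covering of the other points
-/

set_option autoImplicit false

namespace Pool.Agent.W2helper84.QS

open Pool.Agent.R341.Uni
open Filter Topology

/-- the upper bound for the bases -/
def B0 : ℚ := 18767 / 10000

/-- one branch -/
lemma branchB (u v : List Bool) (q : ℚ) (lo hi : ℚ) (hv : 1 ≤ v.length) (hq : 1 < q) (hqB : q < B0)
    (hc : chk q (pv q v) (u ++ v) = true) (hlo : fv B0 (pv B0 v) u ≤ lo)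
    (hhi : hi ≤ fv q (pv q v) u) {x : ℝ} (h1 : (lo : ℝ) < x) (h2 : x < hi) :
    ∃ q ∈ Ux x, q < (B0 : ℝ) := by
  have hB : (1 : ℚ) < B0 := by unfold B0; norm_num
  have hB2 : (B0 : ℝ) ≤ 2 := by unfold B0; norm_num
  have hq' : (1 : ℝ) < q := by exact_mod_cast hq
  have hqB' : (q : ℝ) < B0 := by exact_mod_cast hqB
  have hU := ep_un hq hv hc
  have e1 : P (B0 : ℝ) (ep u v) < x := by
    rw [ep_val hB hv]
    refine lt_of_le_of_lt ?_ h1
    exact_mod_cast hlo
  have e2 : x < P (q : ℝ) (ep u v) := by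
    rw [ep_val hq hv]
    refine lt_of_lt_of_le h2 ?_
    exact_mod_cast hhi
  obtain ⟨q', h3, h4, h5⟩ := P_ivt hq' hqB'.le _ e1 e2
  exact ⟨q', mem_Ux.2 ⟨by linarith, by linarith, _, h5, hU.mono hq' h3.le⟩, h4⟩

lemma C0 {x : ℝ} (h1 : ((62556 / 100000 : ℚ) : ℝ) < x) (h2 : x < ((63065 / 100000 : ℚ) : ℝ)) :
    ∃ q ∈ Ux x, q < (B0 : ℝ) :=
  branchB (W [1,0,0]) (W [1,0,0,0,1,1]) (186679/100000) _ _ (by decide)
    (by norm_num) (by unfold B0; norm_num) (by decide +kernel) (by decide +kernel) (by decide +kernel) h1 h2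

lemma C1 {x : ℝ} (h1 : ((63053 / 100000 : ℚ) : ℝ) < x) (h2 : x < ((654 / 1000 : ℚ) : ℝ)) :
    ∃ q ∈ Ux x, q < (B0 : ℝ) :=
  branchB (W [1,0,0,1,0,0]) (W [1,0,1,0,1,0,1,0,1]) (18335/10000) _ _ (by decide)
    (by norm_num) (by unfold B0; norm_num) (by decide +kernel) (by decide +kernel) (by decide +kernel) h1 h2

lemma C2 {x : ℝ} (h1 : ((653 / 1000 : ℚ) : ℝ) < x) (h2 : x < ((71 / 100 : ℚ) : ℝ)) :
    ∃ q ∈ Ux x, q < (B0 : ℝ) :=
  branchB (W []) (W [1,0,0,1,0,1,1,0]) (1785/1000) _ _ (by decide)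
    (by norm_num) (by unfold B0; norm_num) (by decide +kernel) (by decide +kernel) (by decide +kernel) h1 h2

lemma C3 {x : ℝ} (h1 : ((67 / 100 : ℚ) : ℝ) < x) (h2 : x < ((75 / 100 : ℚ) : ℝ)) :
    ∃ q ∈ Ux x, q < (B0 : ℝ) :=
  branchB (W []) (W [1,0,0,1]) (176/100) _ _ (by decide)
    (by norm_num) (by unfold B0; norm_num) (by decide +kernel) (by decide +kernel) (by decide +kernel) h1 h2

lemma C4 {x : ℝ} (h1 : ((745 / 1000 : ℚ) : ℝ) < x) (h2 : x < ((997 / 1000 : ℚ) : ℝ)) :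
    ∃ q ∈ Ux x, q < (B0 : ℝ) :=
  branchB (W []) (W [1,0]) (162/100) _ _ (by decide)
    (by norm_num) (by unfold B0; norm_num) (by decide +kernel) (by decide +kernel) (by decide +kernel) h1 h2

lemma C5 {x : ℝ} (h1 : ((93 / 100 : ℚ) : ℝ) < x) (h2 : x < ((123 / 100 : ℚ) : ℝ)) :
    ∃ q ∈ Ux x, q < (B0 : ℝ) :=
  branchB (W [1]) (W [1,0]) (162/100) _ _ (by decide)
    (by norm_num) (by unfold B0; norm_num) (by decide +kernel) (by decide +kernel) (by decide +kernel) h1 h2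

lemma C6 {x : ℝ} (h1 : ((356 / 1000 : ℚ) : ℝ) < x) (h2 : x < ((426 / 1000 : ℚ) : ℝ)) :
    ∃ q ∈ Ux x, q < (B0 : ℝ) :=
  branchB (W [0]) (W [1,0,0,1]) (176/100) _ _ (by decide)
    (by norm_num) (by unfold B0; norm_num) (by decide +kernel) (by decide +kernel) (by decide +kernel) h1 h2

/-- large points -/
lemma right {x : ℝ} (h : 0.6266 ≤ x) : ∃ q ∈ Ux x, q < (B0 : ℝ) := by
  rcases lt_or_ge x 0.6306 with h1 | h1
  · exact C0 (by push_cast; norm_num; linarith) (by push_cast; norm_num; linarith)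
  rcases lt_or_ge x 0.6535 with h2 | h2
  · exact C1 (by push_cast; norm_num; linarith) (by push_cast; norm_num; linarith)
  rcases lt_or_ge x 0.7 with h3 | h3
  · exact C2 (by push_cast; norm_num; linarith) (by push_cast; norm_num; linarith)
  rcases lt_or_ge x 0.747 with h4 | h4
  · exact C3 (by push_cast; norm_num; linarith) (by push_cast; norm_num; linarith)
  rcases lt_or_ge x 0.95 with h5 | h5
  · exact C4 (by push_cast; norm_num; linarith) (by push_cast; norm_num; linarith)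
  rcases lt_or_ge x 1.2 with h6 | h6
  · exact C5 (by push_cast; norm_num; linarith) (by push_cast; norm_num; linarith)
  · have hx : 0 < 1 / x := by positivity
    have hx2 : 1 / x ≤ 1 / 1.2 := one_div_le_one_div_of_le (by norm_num) h6
    norm_num at hx2
    have hx3 : x⁻¹ = 1 / x := by rw [one_div]
    have hq : 1 < 1 + 1 / x := by linarith
    have hval : P (1 + 1 / x) (fun _ => true) = x := by
      rw [P_ones hq]
      field_simp
      ring
    refine ⟨1 + 1 / x, mem_Ux.2 ⟨hq, ?_, fun _ => true, hval, ?_⟩, ?_⟩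
    · linarith
    · intro n
      refine ⟨fun h => by simp at h, fun _ => ?_⟩
      have e : sh (n + 1) (fun _ => true) = fun _ => true := rfl
      rw [e, P_ones hq]
      linarith
    · unfold B0
      push_cast
      norm_num
      linarith

/-- small points -/
lemma small' {x : ℝ} (h0 : 0 < x) (h1 : x < 0.38) : ∃ q ∈ Ux x, q < (B0 : ℝ) := by
  have hBn : (B0 : ℝ) = 1.8767 := by unfold B0; norm_num
  rw [hBn]
  have hB' : (1 : ℝ) < 1.8767 := by norm_num
  have hq62 : (1 : ℝ) < 1.62 := by norm_num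
  have hA : P 1.8767 zo < 0.7442 := by
    rw [P_zo hB']
    norm_num
  have hBv : (0.9972 : ℝ) < P 1.62 zo ∧ P 1.62 zo < 1 ∧ (0.38 : ℝ) * 1.62 ^ 2 < P 1.62 zo := by
    rw [P_zo hq62]
    norm_num
  have hU : Un (1.62 : ℝ) zo := by
    have hG : (1 : ℝ) < 1.62 ^ 2 - 1.62 := by norm_num
    refine un_cons true (un_zz hq62 hG) (fun h => by simp at h) (fun _ => ?_)
    rw [P_zz hq62]
    exact low_zz hq62 hG
  have hex : ∃ j : ℕ, P 1.8767 zo / 1.8767 ^ (j + 2) < x := by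
    have h5 : Tendsto (fun n : ℕ => P 1.8767 zo * (1 / (1.8767 : ℝ)) ^ n) atTop
        (𝓝 (P 1.8767 zo * 0)) :=
      (tendsto_pow_atTop_nhds_zero_of_lt_one (by positivity) (by norm_num)).const_mul _
    rw [mul_zero] at h5
    obtain ⟨n, hn⟩ := (h5.eventually_lt_const h0).exists
    refine ⟨n, lt_of_le_of_lt ?_ hn⟩
    rw [one_div_pow, mul_one_div]
    refine div_le_div_of_nonneg_left (P_nonneg hB' _) (by positivity) ?_
    exact pow_le_pow_right₀ hB'.le (by omega)
  classical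
  obtain ⟨j, hj1, hj2⟩ : ∃ j : ℕ, P 1.8767 zo / 1.8767 ^ j < x ∧ x < P 1.62 zo / (1.62 : ℝ) ^ j := by
    have hs := Nat.find_spec hex
    rcases Nat.eq_zero_or_pos (Nat.find hex) with h | h
    · refine ⟨2, by rw [h] at hs; exact hs, ?_⟩
      rw [lt_div_iff₀ (by norm_num)]
      have := hBv.2.2
      nlinarith [this, h1]
    · obtain ⟨m, hm⟩ : ∃ m, Nat.find hex = m + 1 := ⟨Nat.find hex - 1, by omega⟩
      have hmin := Nat.find_min hex (m := m) (by omega)
      push Not at hmin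
      rw [hm] at hs
      refine ⟨m + 1 + 2, hs, lt_of_le_of_lt hmin ?_⟩
      rw [div_lt_div_iff₀ (by positivity) (by positivity)]
      have h6 : (1.62 : ℝ) ^ m ≤ 1.8767 ^ m := pow_le_pow_left₀ (by norm_num) (by norm_num) _
      have h7 : (1.62 : ℝ) ^ (m + 1 + 2) = 1.62 ^ m * 4.251528 := by ring
      have h8 : (1.8767 : ℝ) ^ (m + 2) = 1.8767 ^ m * 3.52200289 := by ring
      have h9 : (0 : ℝ) < 1.62 ^ m := by positivity
      rw [h7, h8]
      have t0 := P_nonneg (q := 1.8767) (by norm_num) zo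
      calc P 1.8767 zo * (1.62 ^ m * 4.251528) ≤ 0.7442 * (1.62 ^ m * 4.251528) :=
            mul_le_mul_of_nonneg_right hA.le (by positivity)
        _ < 0.9972 * (1.62 ^ m * 3.52200289) := by nlinarith
        _ ≤ 0.9972 * (1.8767 ^ m * 3.52200289) := by nlinarith
        _ ≤ P 1.62 zo * (1.8767 ^ m * 3.52200289) :=
            mul_le_mul_of_nonneg_right hBv.1.le (by positivity)
  obtain ⟨q', h3, h4, h5⟩ := P_ivt hq62 (by norm_num : (1.62 : ℝ) ≤ 1.8767) (zs zo j) (y := x)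
    (by rw [zs_P hB']; exact hj1) (by rw [zs_P hq62]; exact hj2)
  exact ⟨q', mem_Ux.2 ⟨by linarith, by linarith, _, h5,
    (zs_un hq62 hU hBv.2.1 j).mono hq62 h3.le⟩, h4⟩

/-- the points smaller than `c = (√5 - 1) / 2` -/
lemma left {x c : ℝ} (hc0 : 0 < c) (hc : c ^ 2 + c = 1) (h0 : 0 < x) (h1 : x < c) :
    ∃ q ∈ Ux x, q < (B0 : ℝ) := by
  rcases lt_or_ge x 0.38 with h2 | h2
  · exact small' h0 h2
  rcases lt_or_ge x 0.4 with h3 | h3
  · exact C6 (by push_cast; norm_num; linarith) (by push_cast; norm_num; linarith)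
  have hBn : (B0 : ℝ) = 1.8767 := by unfold B0; norm_num
  rw [hBn]
  have hx1 : 1 + c < 1 / x := by
    rw [lt_div_iff₀ h0]
    have : (1 + c) * x < (1 + c) * c := mul_lt_mul_of_pos_left h1 (by linarith)
    nlinarith
  have hx2 : 1 / x ≤ 2.5 := by
    rw [div_le_iff₀ h0]
    linarith
  set p : ℝ := Real.sqrt (1 + 1 / x) with hp
  have hp2 : p ^ 2 = 1 + 1 / x := Real.sq_sqrt (by positivity)
  have hp0 : 0 ≤ p := Real.sqrt_nonneg _
  have hp1 : 1 < p := by nlinarith
  have hpB : p < 1.8767 := by nlinarith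
  have hG : 1 < p ^ 2 - p := by
    -- `1 / x > p`
    have h4 : p < 1 / x := by
      have : p ^ 2 < (1 / x) ^ 2 := by
        rw [hp2]
        nlinarith
      exact lt_of_pow_lt_pow_left₀ 2 (by positivity) this
    linarith
  refine ⟨p, mem_Ux.2 ⟨hp1, by linarith, zz, ?_, un_zz hp1 hG⟩, hpB⟩
  rw [P_zz hp1, hp2]
  field_simp
  ring

end Pool.Agent.W2helper84.QS
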