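import Pool.Agent.W2helper84.QS.Cover

/-!
# Level sets of the smallest univoque base function: a level set with one element
-/

set_option autoImplicit false

namespace Pool.Agent.W2helper84.QS

open Pool.Agent.R341.Uni
open Filter Topology

/-- all univoque bases `q` of a point `x` in `[c, 0.625)` satisfy `bf q < x` -/
lemma lower {c x q : ℝ} (hc0 : 0 < c) (hc : c ^ 2 + c = 1) (hcx : c ≤ x) (hx : x < 0.625)
    (hq : q ∈ Ux x) : bf q < x := by
  obtain ⟨hq1, hq2, s, hs, hU⟩ := mem_Ux.1 hq
  have hx0 : 0 < x := by linarith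
  have hq0 : 0 < q := by linarith
  have hc1 : c < 0.6181 := by nlinarith
  have hc2 : 0.618 < c := by nlinarith
  cases h0 : s 0
  · -- first digit 0
    exfalso
    have h1 := (hU 0).1 h0
    rw [zero_add] at h1
    have h2 : P q (sh 1 s) = q * x := by
      have := P_succ hq1 s
      rw [h0, dg_false, zero_add, hs] at this
      rw [this]
      field_simp
    rw [h2] at h1
    have h3 : q < 1 + c := by
      have h4 : q * c < 1 := lt_of_le_of_lt (mul_le_mul_of_nonneg_left hcx hq0.le) h1
      have h5 : (1 + c) * c = 1 := by linarith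
      by_contra hcon
      push Not at hcon
      have := mul_le_mul_of_nonneg_right hcon hc0.le
      linarith
    obtain ⟨n, hn⟩ := exists_true_of_pos (q := q) (d := s) (by rw [hs]; exact hx0)
    classical
    have hex : ∃ n, s n = true := ⟨n, hn⟩
    have hm1 := Nat.find_spec hex
    have hm0 : Nat.find hex ≠ 0 := by
      intro h
      rw [h, h0] at hm1
      exact absurd hm1 (by simp)
    obtain ⟨m, hm⟩ : ∃ m, Nat.find hex = m + 1 := ⟨Nat.find hex - 1, by omega⟩
    rw [hm] at hm1
    have hm2 : s m = false := by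
      have := Nat.find_min hex (m := m) (by omega)
      simpa using this
    have a1 := (hU m).1 hm2
    have a2 := (hU (m + 1)).2 hm1
    rw [P_succ hq1 (sh (m + 1) s), sh_apply, add_zero, hm1, dg_true, sh_sh,
      div_lt_one hq0] at a1
    have a3 : 1 / (q - 1) < q := by linarith
    rw [div_lt_iff₀ (by linarith)] at a3
    nlinarith
  · -- first digit 1
    have h1 := (hU 0).2 h0
    rw [zero_add] at h1
    have h2 : P q (sh 1 s) = q * x - 1 := by
      have := P_succ hq1 s
      rw [h0, dg_true, hs] at this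
      rw [this]
      field_simp
      ring
    rw [h2] at h1
    have h3 : 1 / (q - 1) < q * x := by linarith
    have hsplit := P_split hq1 s 4
    have t4 := P_nonneg hq1 (sh 4 s)
    have hT : 0 ≤ P q (sh 4 s) / q ^ 4 := div_nonneg t4 (by positivity)
    simp only [Finset.sum_range_succ, Finset.sum_range_zero, h0, dg_true, zero_add, pow_one] at hsplit
    rw [hs] at hsplit
    have i1 : 1 / (2 : ℝ) ≤ 1 / q := one_div_le_one_div_of_le hq0 hq2
    have i2 : 1 / (2 : ℝ) ^ 2 ≤ 1 / q ^ 2 :=
      one_div_le_one_div_of_le (by positivity) (pow_le_pow_left₀ hq0.le hq2 2)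
    have i3 : 1 / (2 : ℝ) ^ 3 ≤ 1 / q ^ 3 :=
      one_div_le_one_div_of_le (by positivity) (pow_le_pow_left₀ hq0.le hq2 3)
    have d1 := dg_nonneg (s 1)
    have d2 := dg_nonneg (s 2)
    have d3 := dg_nonneg (s 3)
    have e1 : 0 ≤ dg (s 1) / q ^ 2 := by positivity
    have e2 : 0 ≤ dg (s 2) / q ^ 3 := by positivity
    have e3 : 0 ≤ dg (s 3) / q ^ 4 := by positivity
    norm_num at hsplit
    cases h1' : s 1
    · cases h2' : s 2
      · cases h3' : s 3
        · -- 1000
          exfalso
          have h5 := (hU 3).1 h3'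
          rw [show 3 + 1 = 4 by norm_num] at h5
          have h6 : x < 1 / q + 1 / q ^ 4 := by
            have : P q (sh 4 s) / q ^ 4 < 1 / q ^ 4 := div_lt_div_of_pos_right h5 (by positivity)
            rw [h1', h2', h3'] at hsplit
            simp only [dg_false, zero_div, add_zero] at hsplit
            rw [one_div q]
            linarith
          have h7 : x * q ^ 4 < q ^ 3 + 1 := by
            have : x * q ^ 4 < (1 / q + 1 / q ^ 4) * q ^ 4 := mul_lt_mul_of_pos_right h6 (by positivity)
            have e : (1 / q + 1 / q ^ 4) * q ^ 4 = q ^ 3 + 1 := by field_simp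
            rw [e] at this
            exact this
          have hq3 : 0 < q - 1 := by linarith
          -- `q ^ 2 - q > 1 + c`
          have h8 : 0 < (q ^ 2 - q) ^ 2 - (q ^ 2 - q) - 1 := by
            have a1 : q ^ 3 / (q - 1) < x * q ^ 4 := by
              have : q ^ 3 * (1 / (q - 1)) < q ^ 3 * (q * x) := mul_lt_mul_of_pos_left h3 (by positivity)
              calc q ^ 3 / (q - 1) = q ^ 3 * (1 / (q - 1)) := by ring
                _ < q ^ 3 * (q * x) := this
                _ = x * q ^ 4 := by ring
            have a2 : q ^ 3 / (q - 1) < q ^ 3 + 1 := lt_trans a1 h7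
            rw [div_lt_iff₀ hq3] at a2
            nlinarith
          have h9 : 1 + c < q ^ 2 - q := by
            by_contra hcon
            push Not at hcon
            have b1 : (q ^ 2 - q) ^ 2 - (q ^ 2 - q) - 1 = ((q ^ 2 - q) - (1 + c)) * ((q ^ 2 - q) + c) := by
              have : c ^ 2 = 1 - c := by linarith
              ring_nf
              rw [this]
              ring
            have b2 : 0 < (q ^ 2 - q) + c := by nlinarith
            have b3 : ((q ^ 2 - q) - (1 + c)) * ((q ^ 2 - q) + c) ≤ 0 :=
              mul_nonpos_of_nonpos_of_nonneg (by linarith) b2.le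
            linarith
          have h10 : q ^ 4 - (1 + c) * (q ^ 3 + 1) = (q ^ 2 - q - (1 + c)) * (q ^ 2 - c * q + 1) := by
            have : c ^ 2 = 1 - c := by linarith
            ring_nf
            rw [this]
            ring
          have h11 : 0 < (q ^ 2 - q - (1 + c)) * (q ^ 2 - c * q + 1) :=
            mul_pos (by linarith) (by nlinarith)
          have h12 : c * q ^ 4 < q ^ 3 + 1 :=
            lt_of_le_of_lt (mul_le_mul_of_nonneg_right hcx (by positivity)) h7
          have h13 : (1 + c) * (c * q ^ 4) < (1 + c) * (q ^ 3 + 1) :=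
            mul_lt_mul_of_pos_left h12 (by linarith)
          have h14 : (1 + c) * (c * q ^ 4) = q ^ 4 := by
            have : (1 + c) * (c * q ^ 4) = (c ^ 2 + c) * q ^ 4 := by ring
            rw [this, hc, one_mul]
          rw [h14] at h13
          linarith
        · -- 1001
          have hLt : Lt bs s := by
            refine ⟨3, fun i hi => ?_, rfl, h3'⟩
            interval_cases i
            · rw [h0]; rfl
            · rw [h1']; rfl
            · rw [h2']; rfl
          have h5 := hU.lt_right hq1 hLt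
          rw [P_bs hq1, hs] at h5
          exact h5
      · -- 101
        exfalso
        have h7 : (0.625 : ℝ) ≤ x := by
          rw [h1', h2'] at hsplit
          norm_num at hsplit i1 i2 i3
          have : (q ^ 3)⁻¹ = 1 / q ^ 3 := by rw [one_div]
          linarith
        linarith
    · -- 11
      exfalso
      have h7 : (0.625 : ℝ) ≤ x := by
        rw [h1'] at hsplit
        norm_num at hsplit i1 i2 i3
        linarith
      linarith

/-- the base -/
lemma exists_Q : ∃ Q : ℝ, 1.8767 < Q ∧ Q < 1.8768 ∧ EE Q = 0 := by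
  have h1 : P 1.8768 ts < 1 := by
    rw [P_ts (by norm_num)]
    unfold EE
    norm_num
  have h2 : 1 < P 1.8767 ts := by
    rw [P_ts (by norm_num)]
    unfold EE
    norm_num
  obtain ⟨Q, h3, h4, h5⟩ := P_ivt (by norm_num : (1 : ℝ) < 1.8767) (by norm_num) ts h1 h2
  refine ⟨Q, h3, h4, ?_⟩
  rw [P_ts (by linarith)] at h5
  linarith

/-- the base belongs to `U` -/
lemma mem_U {Q : ℝ} (h1 : 1.8767 < Q) (h2 : Q < 1.8768) (hQ : EE Q = 0) : Q ∈ Ux 1 := by
  have hQ1 : 1 < Q := by linarith
  refine mem_Ux.2 ⟨hQ1, by linarith, ts, ?_, ?_⟩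
  · rw [P_ts hQ1, hQ, add_zero]
  · have hG : 1 < Q ^ 2 - Q := by nlinarith
    have hl := low_zz hQ1 hG
    have hq2 : 0 < Q ^ 2 - 1 := by nlinarith
    have v0 : P Q zz = 1 / (Q ^ 2 - 1) := P_zz hQ1
    have v0' : P Q zz < 0.4 := by
      rw [v0, div_lt_iff₀ hq2]
      nlinarith
    have v0'' : 0.39 < P Q zz := by
      rw [v0, lt_div_iff₀ hq2]
      nlinarith
    have l2 : 1 / (Q - 1) - 1 < 0.15 := by
      have : 1 / (Q - 1) ≤ 1 / 0.8767 := one_div_le_one_div_of_le (by norm_num) (by linarith)
      have h8 : (1 : ℝ) / 0.8767 < 1.15 := by norm_num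
      linarith
    have u1 : Un Q (cons false zz) :=
      un_cons false (un_zz hQ1 hG) (fun _ => by linarith) (fun h => by simp at h)
    have v1 : 0.2 < P Q (cons false zz) := by
      rw [P_cons hQ1, dg_false, zero_add, lt_div_iff₀ (by linarith)]
      linarith
    have u2 : Un Q (cons true (cons false zz)) :=
      un_cons true u1 (fun h => by simp at h) (fun _ => by linarith)
    have v2 : 0.2 < P Q (cons true (cons false zz)) := by
      rw [P_cons hQ1, dg_true, lt_div_iff₀ (by linarith)]
      linarith
    have u3 : Un Q (cons true (cons true (cons false zz))) :=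
      un_cons true u2 (fun h => by simp at h) (fun _ => by linarith)
    have v3 : 0.2 < P Q (cons true (cons true (cons false zz))) := by
      rw [P_cons hQ1, dg_true, lt_div_iff₀ (by linarith)]
      linarith
    exact un_cons true u3 (fun h => by simp at h) (fun _ => by linarith)

lemma bf_lt {Q : ℝ} (h1 : 1.8767 < Q) : bf Q < 0.6249 := by
  have h3 := P_anti (by norm_num : (1 : ℝ) < 1.8767) h1.le bs
  rw [P_bs (by linarith : (1 : ℝ) < Q), P_bs (by norm_num)] at h3
  refine lt_of_le_of_lt h3 ?_
  unfold bf
  norm_num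

lemma lt_bf {Q : ℝ} (h1 : 1.8767 < Q) (h2 : Q < 1.8768) : 0.6247 < bf Q := by
  have h3 := P_anti (by linarith : (1 : ℝ) < Q) h2.le bs
  rw [P_bs (by norm_num), P_bs (by linarith)] at h3
  refine lt_of_lt_of_le ?_ h3
  unfold bf
  norm_num

lemma bf_val : 0.6266 < bf 1.8736 := by
  unfold bf
  norm_num

/-- the level set has exactly one element -/
theorem level {Q : ℝ} (h1 : 1.8767 < Q) (h2 : Q < 1.8768) (hQ : EE Q = 0) :
    {x : ℝ | 0 < x ∧ sInf (Ux x) = Q} = {bf Q} := by
  have hQ1 : 1 < Q := by linarith
  have hBn : (B0 : ℝ) = 1.8767 := by unfold B0; norm_num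
  have h5 : (0 : ℝ) ≤ Real.sqrt 5 := Real.sqrt_nonneg 5
  have h5' : Real.sqrt 5 ^ 2 = 5 := Real.sq_sqrt (by norm_num)
  obtain ⟨c, hc0, hc⟩ : ∃ c : ℝ, 0 < c ∧ c ^ 2 + c = 1 := by
    refine ⟨(Real.sqrt 5 - 1) / 2, by nlinarith, by nlinarith⟩
  have hc1 : c < 0.6181 := by nlinarith
  have hb1 := bf_lt h1
  have hb2 := lt_bf h1 h2
  have small : ∀ x, (∃ p ∈ Ux x, p < Q) → sInf (Ux x) ≠ Q := by
    rintro x ⟨p, hp1, hp2⟩ h
    have := csInf_le (bdd_Ux x) hp1
    linarith
  ext x
  simp only [Set.mem_ofPred_eq, Set.mem_singleton_iff]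
  constructor
  · rintro ⟨hx0, hx⟩
    by_contra hne
    rcases lt_or_ge x c with h3 | h3
    · obtain ⟨p, hp1, hp2⟩ := left hc0 hc hx0 h3
      exact small x ⟨p, hp1, by linarith⟩ hx
    rcases lt_or_gt_of_ne hne with h4 | h4
    · -- `c ≤ x < bf Q`
      have e1 : P 2 bs < x := by
        rw [P_bs (by norm_num)]
        refine lt_of_lt_of_le ?_ h3
        have : (0.618 : ℝ) < c := by nlinarith
        refine lt_trans ?_ this
        unfold bf
        norm_num
      have e2 : x < P Q bs := by rw [P_bs hQ1]; exact h4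
      obtain ⟨r, hr1, hr2, hr3⟩ := P_ivt hQ1 (by linarith : Q ≤ 2) bs e1 e2
      rw [P_bs (by linarith)] at hr3
      obtain ⟨q', hq', _⟩ := F1 hx0
      have h6 : r ≤ sInf (Ux x) := by
        refine le_csInf ⟨q', hq'⟩ fun q hq => ?_
        have h7 := lower hc0 hc h3 (by linarith) hq
        by_contra hcon
        push Not at hcon
        have hq1 : 1 < q := (mem_Ux.1 hq).1
        have := P_anti hq1 hcon.le bs
        rw [P_bs hq1, P_bs (by linarith)] at this
        linarith
      linarith
    · -- `bf Q < x`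
      rcases lt_or_ge x 0.6266 with h6 | h6
      · have e1 : P Q bs < x := by rw [P_bs hQ1]; exact h4
        have e2 : x < P 1.8736 bs := by
          rw [P_bs (by norm_num)]
          have := bf_val
          linarith
        obtain ⟨r, hr1, hr2, hr3⟩ := P_ivt (by norm_num : (1 : ℝ) < 1.8736)
          (by linarith : 1.8736 ≤ Q) bs e1 e2
        rw [P_bs (by linarith)] at hr3
        have := near hr1.le hr2 h2 h1 hQ
        rw [hr3] at this
        exact small x this hx
      · obtain ⟨p, hp1, hp2⟩ := right h6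
        exact small x ⟨p, hp1, by linarith⟩ hx
  · rintro rfl
    have hb0 : 0 < bf Q := by linarith
    refine ⟨hb0, le_antisymm ?_ ?_⟩
    · refine le_of_forall_gt_imp_ge_of_dense fun B hB => ?_
      have hB' : Q < min B 1.9 := lt_min hB (by linarith)
      obtain ⟨p, hp1, hp2⟩ := approx hB' (lt_of_le_of_lt (min_le_right _ _) (by norm_num)) h1 hQ
      have := csInf_le (bdd_Ux (bf Q)) hp1
      have := min_le_left B 1.9
      linarith
    · obtain ⟨q', hq', _⟩ := F1 hb0
      refine le_csInf ⟨q', hq'⟩ fun q hq => ?_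
      have h7 := lower hc0 hc (by linarith) (by linarith) hq
      by_contra hcon
      push Not at hcon
      have hq1 : 1 < q := (mem_Ux.1 hq).1
      have := P_anti hq1 hcon.le bs
      rw [P_bs hq1, P_bs hQ1] at this
      linarith

end Pool.Agent.W2helper84.QS
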