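import Pool.Agent.W2helper84.QS.Base

/-!
# Level sets of the smallest univoque base function: the neighbourhood of the exceptional point
-/

set_option autoImplicit false

namespace Pool.Agent.W2helper84.QS

open Pool.Agent.R341.Uni

/-- the value of `1000 1^∞` in base `q` -/
noncomputable def bf (q : ℝ) : ℝ := 1 / q + 1 / (q ^ 4 * (q - 1))

/-- the sequence `1000 1^∞` -/
def bs : ℕ → Bool := cons true (cons false (cons false (cons false fun _ => true)))

lemma P_bs {q : ℝ} (hq : 1 < q) : P q bs = bf q := by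
  unfold bs bf
  rw [P_cons hq, P_cons hq, P_cons hq, P_cons hq, P_ones hq, dg_false, dg_true]
  have hq0 : q ≠ 0 := by linarith
  have hq1 : q - 1 ≠ 0 := by linarith
  field_simp
  ring

/-- the sequence `1110 (01)^∞` -/
def ts : ℕ → Bool := cons true (cons true (cons true (cons false zz)))

/-- the sequence `0001 (10)^∞` -/
def tb : ℕ → Bool := cons false (cons false (cons false (cons true zo)))

/-- the sequence `1001 0001 (10)^∞` -/
def vb : ℕ → Bool := cons true (cons false (cons false (cons true tb)))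

/-- the value of `1110 (01)^∞` minus one -/
noncomputable def EE (q : ℝ) : ℝ := 1 / (q - 1) - 1 - (1 + q / (q ^ 2 - 1)) / q ^ 4

lemma P_tb {q : ℝ} (hq : 1 < q) : P q tb = (1 + q / (q ^ 2 - 1)) / q ^ 4 := by
  unfold tb
  rw [P_cons hq, P_cons hq, P_cons hq, P_cons hq, P_zo hq, dg_false, dg_true]
  have hq0 : q ≠ 0 := by linarith
  simp only [zero_add, div_div]
  ring_nf

lemma P_vb {q : ℝ} (hq : 1 < q) : P q vb = 1 / q + (1 + P q tb) / q ^ 4 := by
  unfold vb
  rw [P_cons hq, P_cons hq, P_cons hq, P_cons hq, dg_false, dg_true]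
  have hq0 : q ≠ 0 := by linarith
  field_simp
  ring

lemma P_ts {q : ℝ} (hq : 1 < q) : P q ts = 1 + EE q := by
  unfold ts EE
  rw [P_cons hq, P_cons hq, P_cons hq, P_cons hq, P_zz hq, dg_false, dg_true]
  have hq0 : q ≠ 0 := by linarith
  have hq1 : q + 1 ≠ 0 := by linarith
  have hq3 : q - 1 ≠ 0 := by linarith
  have e3 : q ^ 2 - 1 = (q - 1) * (q + 1) := by ring
  rw [e3]
  field_simp
  ring

lemma T_gap {q : ℝ} (hq : 1 < q) (k : ℕ) :
    P q (T k) = 1 / (q - 1) - 1 - EE q + 1 / (q ^ (2 * k + 7) * (q + 1)) := by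
  rw [P_T hq, P_S hq]
  unfold EE
  have hq0 : q ≠ 0 := by linarith
  have hq1 : q + 1 ≠ 0 := by linarith
  have e : q ^ (2 * k + 7) = q ^ (2 * k + 3) * q ^ 4 := by ring
  have e2 : 1 / (q ^ (2 * k + 3) * q ^ 4 * (q + 1)) = 1 / (q ^ (2 * k + 3) * (q + 1)) / q ^ 4 := by
    rw [div_div]
    congr 1
    ring
  rw [e, e2]
  ring

/-- the value of `V k` -/
lemma V_gap {q : ℝ} (hq : 1 < q) (k : ℕ) :
    P q (V k) = bf q - EE q / q ^ 4 + 1 / (q ^ (2 * k + 7) * (q + 1)) / q ^ 4 := by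
  rw [P_V hq, T_gap hq]
  unfold bf
  have hq0 : q ≠ 0 := by linarith
  have e2 : 1 / (q ^ 4 * (q - 1)) = 1 / (q - 1) / q ^ 4 := by
    rw [div_div]
    congr 1
    ring
  rw [e2]
  ring

lemma EE_pos {r Q : ℝ} (hr : 1 < r) (hrQ : r < Q) (hQ : EE Q = 0) : 0 < EE r := by
  have h := P_strict hr hrQ ts (n := 0) rfl
  rw [P_ts hr, P_ts (by linarith), hQ] at h
  linarith

lemma EE_le {r Q : ℝ} (hr : 1 < r) (hrQ : r ≤ Q) (hQ : EE Q = 0) :
    EE r ≤ 1 / (r - 1) - 1 / (Q - 1) := by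
  have h := P_anti hr hrQ tb
  rw [P_tb hr, P_tb (by linarith)] at h
  unfold EE at hQ ⊢
  linarith

lemma bf_sub {r Q : ℝ} (hr : 1 < r) (hrQ : r ≤ Q) :
    (1 / r - 1 / Q) + (1 / (r - 1) - 1 / (Q - 1)) / Q ^ 4 ≤ bf r - bf Q := by
  unfold bf
  have hQ : 1 < Q := by linarith
  have h1 : 1 / (r - 1) / Q ^ 4 ≤ 1 / (r ^ 4 * (r - 1)) := by
    rw [div_div]
    apply one_div_le_one_div_of_le
    · have : 0 < r - 1 := by linarith
      positivity
    · rw [mul_comm]
      apply mul_le_mul_of_nonneg_left _ (by linarith)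
      exact pow_le_pow_left₀ (by linarith) hrQ 4
  have h2 : 1 / (Q - 1) / Q ^ 4 = 1 / (Q ^ 4 * (Q - 1)) := by
    rw [div_div]
    congr 1
    ring
  rw [sub_div, h2]
  linarith

/-- every point a little to the right of `bf Q` has a univoque base smaller than `Q` -/
lemma near {r Q : ℝ} (hr : 1.8736 ≤ r) (hrQ : r < Q) (hQ2 : Q < 1.8768) (hQ1 : 1.8767 < Q)
    (hQ : EE Q = 0) : ∃ p ∈ Ux (bf r), p < Q := by
  have hr1 : 1 < r := by linarith
  have hQ1' : 1 < Q := by linarith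
  have hr0 : 0 < r - 1 := by linarith
  have hQ0 : 0 < Q - 1 := by linarith
  set D : ℝ := 1 / (r - 1) - 1 / (Q - 1) with hD
  have hDe : D = (Q - r) / ((r - 1) * (Q - 1)) := by
    rw [hD]
    field_simp
    ring
  have hE0 := EE_pos hr1 hrQ hQ
  have hE1 : EE r ≤ D := EE_le hr1 hrQ.le hQ
  have hD1 : D < 0.0042 := by
    rw [hDe, div_lt_iff₀ (mul_pos hr0 hQ0)]
    nlinarith
  have hg0 : (0.0042 : ℝ) < 1 / (r ^ (2 * 0 + 7) * (r + 1)) := by
    rw [lt_div_iff₀ (by positivity)]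
    have h1 : r ^ (2 * 0 + 7) ≤ 1.8768 ^ 7 := by
      have : r ^ 7 ≤ 1.8768 ^ 7 := pow_le_pow_left₀ (by linarith) (by linarith) 7
      simpa using this
    have h2 : r ^ (2 * 0 + 7) * (r + 1) ≤ 1.8768 ^ 7 * 2.8768 :=
      mul_le_mul h1 (by linarith) (by positivity) (by positivity)
    calc 0.0042 * (r ^ (2 * 0 + 7) * (r + 1)) ≤ 0.0042 * (1.8768 ^ 7 * 2.8768) :=
          mul_le_mul_of_nonneg_left h2 (by norm_num)
      _ < 1 := by norm_num
  have hex : ∃ k : ℕ, 1 / (r ^ (2 * k + 7) * (r + 1)) ≤ EE r := by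
    obtain ⟨k, hk⟩ := exists_pow_lt_of_lt_one hE0 (show 1 / r < 1 by
      rw [div_lt_one (by linarith)]; exact hr1)
    refine ⟨k, le_trans ?_ hk.le⟩
    rw [one_div_pow]
    apply one_div_le_one_div_of_le (by positivity)
    calc r ^ k ≤ r ^ (2 * k + 7) := pow_le_pow_right₀ hr1.le (by omega)
      _ ≤ r ^ (2 * k + 7) * (r + 1) := le_mul_of_one_le_right (by positivity) (by linarith)
  classical
  have hs := Nat.find_spec hex
  have hne : Nat.find hex ≠ 0 := by
    intro h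
    rw [h] at hs
    linarith
  obtain ⟨m, hm⟩ : ∃ m, Nat.find hex = m + 1 := ⟨Nat.find hex - 1, by omega⟩
  have hmin := Nat.find_min hex (m := m) (by omega)
  push Not at hmin
  rw [hm] at hs
  have hT : 1 / (r - 1) - 1 < P r (T m) := by
    rw [T_gap hr1]
    linarith
  have hU := un_V (by linarith : 1.86 ≤ r) (by linarith) m hT
  have h2 : bf r < P r (V m) := by
    rw [V_gap hr1]
    have h4 : EE r / r ^ 4 < 1 / (r ^ (2 * m + 7) * (r + 1)) / r ^ 4 :=
      div_lt_div_of_pos_right hmin (by positivity)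
    linarith
  have h1 : P Q (V m) < bf r := by
    rw [V_gap hQ1', hQ, zero_div, sub_zero]
    have h4 := bf_sub hr1 hrQ.le
    rw [← hD] at h4
    have h5 : 1 / (Q ^ (2 * m + 7) * (Q + 1)) ≤ r ^ 2 * D := by
      have h6 : 1 / (Q ^ (2 * m + 7) * (Q + 1)) ≤ 1 / (r ^ (2 * m + 7) * (r + 1)) := by
        apply one_div_le_one_div_of_le (by positivity)
        apply mul_le_mul _ (by linarith) (by positivity) (by positivity)
        exact pow_le_pow_left₀ (by linarith) hrQ.le _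
      have h7 : 1 / (r ^ (2 * m + 7) * (r + 1)) = r ^ 2 * (1 / (r ^ (2 * (m + 1) + 7) * (r + 1))) := by
        have : r ^ (2 * (m + 1) + 7) = r ^ (2 * m + 7) * r ^ 2 := by ring
        rw [this]
        have hr00 : r ≠ 0 := by linarith
        have : r + 1 ≠ 0 := by linarith
        field_simp
      rw [h7] at h6
      refine le_trans h6 ?_
      apply mul_le_mul_of_nonneg_left _ (by positivity)
      exact le_trans hs hE1
    have h8 : r ^ 2 * D / Q ^ 4 < (1 / r - 1 / Q) + D / Q ^ 4 := by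
      have e : (1 / r - 1 / Q) + D / Q ^ 4 - r ^ 2 * D / Q ^ 4 =
          (Q - r) * (Q ^ 3 * (Q - 1) - r * (r + 1)) / (r * Q ^ 4 * (Q - 1)) := by
        rw [hDe]
        have hr00 : r ≠ 0 := by linarith
        have hQ00 : Q ≠ 0 := by linarith
        field_simp
        ring
      have h9 : 0 < Q ^ 3 * (Q - 1) - r * (r + 1) := by
        have a1 : (1.8767 : ℝ) ^ 3 * 0.8767 ≤ Q ^ 3 * (Q - 1) := by
          apply mul_le_mul _ (by linarith) (by norm_num) (by positivity)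
          exact pow_le_pow_left₀ (by norm_num) hQ1.le 3
        have a2 : r * (r + 1) ≤ 1.8768 * 2.8768 := by
          apply mul_le_mul <;> linarith
        norm_num at a1 a2
        linarith
      have : 0 < (Q - r) * (Q ^ 3 * (Q - 1) - r * (r + 1)) / (r * Q ^ 4 * (Q - 1)) :=
        div_pos (mul_pos (by linarith) h9) (by positivity)
      linarith
    have h10 : 1 / (Q ^ (2 * m + 7) * (Q + 1)) / Q ^ 4 ≤ r ^ 2 * D / Q ^ 4 :=
      div_le_div_of_nonneg_right h5 (by positivity)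
    linarith
  obtain ⟨p, hp1, hp2, hp3⟩ := P_ivt hr1 hrQ.le (V m) h1 h2
  exact ⟨p, mem_Ux.2 ⟨by linarith, by linarith, _, hp3, hU.mono hr1 hp1.le⟩, hp2⟩

/-- the point `bf Q` has univoque bases arbitrarily close to `Q` -/
lemma approx {Q B : ℝ} (hQB : Q < B) (hB2 : B < 2) (hQ1 : 1.8767 < Q)
    (hQ : EE Q = 0) : ∃ p ∈ Ux (bf Q), p < B := by
  have hQ1' : 1 < Q := by linarith
  have hB1 : 1 < B := by linarith
  have hstr := P_strict hQ1' hQB vb (n := 0) rfl
  have hvQ : P Q vb = bf Q := by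
    rw [P_vb hQ1', P_tb hQ1']
    unfold EE at hQ
    unfold bf
    have e2 : 1 / (Q ^ 4 * (Q - 1)) = 1 / (Q - 1) / Q ^ 4 := by
      rw [div_div]
      congr 1
      ring
    rw [e2]
    have : 1 + (1 + Q / (Q ^ 2 - 1)) / Q ^ 4 = 1 / (Q - 1) := by linarith
    rw [this]
  rw [hvQ] at hstr
  have hVB : ∀ k, P B (V k) = P B vb + 1 / (B ^ (2 * k + 7) * (B + 1)) / B ^ 4 := by
    intro k
    rw [P_V hB1, T_gap hB1, P_vb hB1, P_tb hB1]
    unfold EE
    ring
  have hpos : 0 < bf Q - P B vb := by linarith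
  obtain ⟨k, hk⟩ := exists_pow_lt_of_lt_one hpos (show 1 / B < 1 by
      rw [div_lt_one (by linarith)]; exact hB1)
  have h1 : P B (V k) < bf Q := by
    rw [hVB]
    have : 1 / (B ^ (2 * k + 7) * (B + 1)) / B ^ 4 ≤ (1 / B) ^ k := by
      rw [div_div, one_div_pow]
      apply one_div_le_one_div_of_le (by positivity)
      calc B ^ k ≤ B ^ (2 * k + 7) := pow_le_pow_right₀ hB1.le (by omega)
        _ ≤ B ^ (2 * k + 7) * ((B + 1) * B ^ 4) := by
            apply le_mul_of_one_le_right (by positivity)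
            have : (1 : ℝ) ≤ B ^ 4 := one_le_pow₀ hB1.le
            nlinarith
        _ = B ^ (2 * k + 7) * (B + 1) * B ^ 4 := by ring
    linarith
  have hpos2 : 0 < 1 / (Q ^ (2 * k + 7) * (Q + 1)) := by positivity
  have hT : 1 / (Q - 1) - 1 < P Q (T k) := by
    rw [T_gap hQ1', hQ]
    linarith
  have h2 : bf Q < P Q (V k) := by
    rw [V_gap hQ1', hQ, zero_div, sub_zero]
    have : 0 < 1 / (Q ^ (2 * k + 7) * (Q + 1)) / Q ^ 4 := by positivity
    linarith
  have hU := un_V (by linarith : 1.86 ≤ Q) (by linarith) k hT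
  obtain ⟨p, hp1, hp2, hp3⟩ := P_ivt hQ1' hQB.le (V k) h1 h2
  exact ⟨p, mem_Ux.2 ⟨by linarith, by linarith, _, hp3, hU.mono hQ1' hp1.le⟩, hp2⟩

end Pool.Agent.W2helper84.QS
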